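import Pool.Agent.X86.OS.Open

/-! # The limit of `d(aⁿ)^(1/n)` need not exist for an open semigroup -/

set_option autoImplicit false

open Filter Topology Metric

namespace Pool.Agent.Results.MP_b2b51b_an.NoLimit

open Pool.Agent.X86.OS

/-- **Negative answer.** For every `0 < r < 1` there are a commutative unital complex Banach
algebra `A` (the disc algebra), an open semigroup `S ≠ A` and `a ∈ S` for which
`d(a^(2m)) ≥ 1` and `d(a^(2m+1)) ≤ r^(2m+1)` for all `m`, where `d(x) = dist(x, A \ S)`;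
in particular `d(aⁿ)^(1/n)` does not converge. -/
theorem _root_.Pool.Agent.Results.MP_b2b51b_an.NoLimit.result (r : ℝ) (hr0 : 0 < r) (hr : r < 1) :
    ∃ (A : Type) (_ : NormedCommRing A) (_ : NormedAlgebra ℂ A) (_ : NormOneClass A)
      (_ : CompleteSpace A) (S : Set A),
      IsOpen S ∧ (∀ a ∈ S, ∀ b ∈ S, a * b ∈ S) ∧ S ≠ Set.univ ∧ ∃ a ∈ S,
        (∀ m : ℕ, 1 ≤ infDist (a ^ (2 * m)) Sᶜ) ∧
        (∀ m : ℕ, infDist (a ^ (2 * m + 1)) Sᶜ ≤ r ^ (2 * m + 1)) ∧
        ¬ ∃ L : ℝ, Tendsto (fun n : ℕ => infDist (a ^ n) Sᶜ ^ (1 / (n : ℝ))) atTop (𝓝 L) := by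
  have h1 : NormOneClass discAlg := ⟨by
    have e : ‖(1 : discAlg)‖ = ‖(1 : C(closedBall (0:ℂ) 1, ℂ))‖ := rfl
    have : Nonempty (closedBall (0:ℂ) 1) := ⟨⟨0, by simp⟩⟩
    rw [e, norm_one]⟩
  have hne : (SS r)ᶜ.Nonempty := ⟨_, low_not_mem hr0 hr 0⟩
  refine ⟨discAlg, inferInstance, inferInstance, h1, inferInstance, SS r, isOpen_SS hr.le,
    fun a ha b hb => SS_mul ha hb, ?_, zz, zz_mem hr0, fun m => even_dist m hne,
    fun m => odd_dist hr0 hr m, ?_⟩
  · rintro h
    rw [h, Set.compl_univ] at hne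
    exact Set.not_nonempty_empty hne
  · rintro ⟨L, hL⟩
    have hev : Tendsto (fun m : ℕ => 2 * m) atTop atTop :=
      tendsto_atTop_mono (fun m => by simp only [id]; omega) tendsto_id
    have hod : Tendsto (fun m : ℕ => 2 * m + 1) atTop atTop :=
      tendsto_atTop_mono (fun m => by simp only [id]; omega) tendsto_id
    have h2 : 1 ≤ L := ge_of_tendsto' (hL.comp hev) fun m =>
      Real.one_le_rpow (even_dist m hne) (by positivity)
    have h3 : L ≤ r := le_of_tendsto' (hL.comp hod) fun m => by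
      have h4 := Real.rpow_le_rpow infDist_nonneg (odd_dist hr0 hr m)
        (show (0:ℝ) ≤ 1 / ((2 * m + 1 : ℕ) : ℝ) by positivity)
      refine h4.trans (le_of_eq ?_)
      rw [one_div, Real.pow_rpow_inv_natCast hr0.le (by omega)]
    linarith

end Pool.Agent.Results.MP_b2b51b_an.NoLimit
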